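import Pool.Agent.Helper99.PG.GoalsF

/-!
PROJECT C2 (MP_2b0227_gt), packet PG-FX: functions on the corners of a skeleton without the
crossing `none` that are invariant along the edges only depend on the region.
-/

namespace Pool.Agent.Helper23.PG

open Pool.Agent.Helper36.SC Pool.Agent.Helper37.Arb Pool.Agent.Helper52.C2
open Pool.Agent.Helper99.PG
open scoped Classical

/-- going around a cycle of a permutation -/
theorem cyc {X : Type} [Finite X] (γ : Equiv.Perm X) (P : X → Prop) (z y x₀ : X)
    (hγ : γ y = x₀) (hx₀ : P x₀) (step : ∀ x, P x → x ≠ z → P (γ x)) : P z ∨ P y := by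
  by_contra h
  rw [not_or] at h
  have hm : Set.MapsTo γ {x | P x} {x | P x} := by
    intro x hx
    refine step x hx ?_
    rintro rfl
    exact h.1 hx
  have hi := Equiv.Perm.perm_symm_mapsTo_of_mapsTo γ hm
  have h1 : P (γ.symm x₀) := hi hx₀
  rw [← hγ, Equiv.symm_apply_apply] at h1
  exact h.2 h1

/-- PACKET PG-FX -/
theorem fExt : GoalFExt := by
  intro V _ S A f hf v v' X X' hr
  obtain ⟨α, hα⟩ : ∃ α, α = S.D.underNext := ⟨_, rfl⟩
  obtain ⟨β, hβ⟩ : ∃ β, β = S.D.overNext := ⟨_, rfl⟩
  have sUL : ∀ x, S.D.SameSide (x, .left) (α x, .left) := by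
    intro x
    have h := AltDiagram.SameSide.underLeft (D := S.D) x
    rw [S.pos, S.pos, if_pos rfl, if_pos rfl] at h
    rw [hα]; exact h
  have sUR : ∀ x, S.D.SameSide (x, .front) (α x, .back) := by
    intro x
    have h := AltDiagram.SameSide.underRight (D := S.D) x
    rw [S.pos, S.pos, if_pos rfl, if_pos rfl] at h
    rw [hα]; exact h
  have sOL : ∀ x, S.D.SameSide (x, .front) (β x, .back) := by
    intro x
    have h := AltDiagram.SameSide.overLeft (D := S.D) x
    rw [S.pos, S.pos, if_pos rfl, if_pos rfl] at h
    rw [hβ]; exact h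
  have sOR : ∀ x, S.D.SameSide (x, .right) (β x, .right) := by
    intro x
    have h := AltDiagram.SameSide.overRight (D := S.D) x
    rw [S.pos, S.pos, if_pos rfl, if_pos rfl] at h
    rw [hβ]; exact h
  have reg : ∀ c c', S.D.SameSide c c' → S.D.region c = S.D.region c' := fun c c' h =>
    Quotient.sound (Relation.EqvGen.rel _ _ h)
  have hl : α (some S.l) = none := by rw [hα]; exact S.hl
  have hr' : β (some S.r) = none := by rw [hβ]; exact S.hr
  have fs : ∀ (a b : V) (Y Y' : Corner), S.D.SameSide (some a, Y) (some b, Y') →
      f (a, Y) = f (b, Y') := fun a b Y Y' h => hf (a, Y) (b, Y') h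
  obtain ⟨wl, hwl⟩ : ∃ wl, α none = some wl := by
    rcases h : α none with _ | w
    · exact absurd (α.injective (h.trans hl.symm)) (by simp)
    · exact ⟨w, rfl⟩
  obtain ⟨wr, hwr⟩ : ∃ wr, β none = some wr := by
    rcases h : β none with _ | w
    · exact absurd (β.injective (h.trans hr'.symm)) (by simp)
    · exact ⟨w, rfl⟩
  have hl' : ∀ x : V, α (some x) = none → x = S.l := fun x hx =>
    Option.some_injective _ (α.injective (hx.trans hl.symm))
  have hr'' : ∀ x : V, β (some x) = none → x = S.r := fun x hx =>
    Option.some_injective _ (β.injective (hx.trans hr'.symm))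
  -- the four equations
  have e1 : f (S.l, .left) = f (wl, .left) := by
    rcases cyc α (fun x => ∃ a, x = some a ∧ f (a, .left) = f (wl, .left)) (some S.l) none
      (some wl) hwl ⟨wl, rfl, rfl⟩ (by
        rintro x ⟨a, rfl, ha⟩ hx
        rcases h : α (some a) with _ | b
        · exact absurd (congrArg some (hl' a h)) hx
        · refine ⟨b, rfl, ?_⟩
          rw [← ha]
          have h1 := sUL (some a)
          rw [h] at h1
          exact (fs a b _ _ h1).symm) with ⟨a, h, ha⟩ | ⟨a, h, ha⟩
    · rw [Option.some_injective _ h]; exact ha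
    · exact absurd h (by simp)
  have e2 : f (S.r, .right) = f (wr, .right) := by
    rcases cyc β (fun x => ∃ a, x = some a ∧ f (a, .right) = f (wr, .right)) (some S.r) none
      (some wr) hwr ⟨wr, rfl, rfl⟩ (by
        rintro x ⟨a, rfl, ha⟩ hx
        rcases h : β (some a) with _ | b
        · exact absurd (congrArg some (hr'' a h)) hx
        · refine ⟨b, rfl, ?_⟩
          rw [← ha]
          have h1 := sOR (some a)
          rw [h] at h1
          exact (fs a b _ _ h1).symm) with ⟨a, h, ha⟩ | ⟨a, h, ha⟩
    · rw [Option.some_injective _ h]; exact ha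
    · exact absurd h (by simp)
  have e3 : f (wl, .back) = f (wr, .back) := by
    have key := cyc (α.symm.trans β) (fun x => ∃ a, x = some a ∧
        S.D.region (some a, .back) = S.D.region (none, .front) ∧
        f (a, .back) = f (wr, .back)) (some wl) (some wl) (some wr)
      (by rw [Equiv.trans_apply, ← hwl, Equiv.symm_apply_apply, hwr])
      ⟨wr, rfl, by rw [← hwr]; exact (reg _ _ (sOL none)).symm, rfl⟩ (by
        rintro x ⟨a, rfl, ha1, ha2⟩ hx
        rw [Equiv.trans_apply]
        rcases h : α.symm (some a) with _ | b
        · exfalso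
          apply hx
          rw [← hwl, ← h, Equiv.apply_symm_apply]
        · have hb : α (some b) = some a := by rw [← h, Equiv.apply_symm_apply]
          have h1 := sUR (some b)
          rw [hb] at h1
          have h2 := sOL (some b)
          have h3 : S.D.region (β (some b), .back) = S.D.region (none, .front) := by
            rw [← reg _ _ h2, reg _ _ h1, ha1]
          rcases h' : β (some b) with _ | d
          · rw [h'] at h3
            exact absurd h3.symm S.cut
          · rw [h'] at h2 h3
            refine ⟨d, rfl, h3, ?_⟩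
            rw [← fs _ _ _ _ h2, fs _ _ _ _ h1, ha2])
    rcases key with ⟨a, h, _, ha⟩ | ⟨a, h, _, ha⟩
    · rw [Option.some_injective _ h]; exact ha
    · rw [Option.some_injective _ h]; exact ha
  have e4 : f (S.r, .front) = f (S.l, .front) := by
    have key := cyc (α.trans β.symm) (fun x => ∃ a, x = some a ∧
        S.D.region (some a, .front) = S.D.region (none, .back) ∧
        f (a, .front) = f (S.r, .front)) (some S.l) (some S.l) (some S.r)
      (by rw [Equiv.trans_apply, hl, ← hr', Equiv.symm_apply_apply])
      ⟨S.r, rfl, by rw [← hr']; exact reg _ _ (sOL (some S.r)), rfl⟩ (by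
        rintro x ⟨a, rfl, ha1, ha2⟩ hx
        rw [Equiv.trans_apply]
        rcases h : α (some a) with _ | b
        · exact absurd (congrArg some (hl' a h)) hx
        · have h1 := sUR (some a)
          rw [h] at h1
          rcases h' : β.symm (some b) with _ | d
          · exfalso
            have hb : β none = some b := by rw [← h', Equiv.apply_symm_apply]
            have h2 := sOL none
            rw [hb] at h2
            apply S.cut
            rw [reg _ _ h2, ← reg _ _ h1, ha1]
          · have hb : β (some d) = some b := by rw [← h', Equiv.apply_symm_apply]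
            have h2 := sOL (some d)
            rw [hb] at h2
            refine ⟨d, rfl, ?_, ?_⟩
            · rw [reg _ _ h2, ← reg _ _ h1, ha1]
            · rw [fs _ _ _ _ h2, ← fs _ _ _ _ h1, ha2])
    rcases key with ⟨a, h, _, ha⟩ | ⟨a, h, _, ha⟩
    · rw [Option.some_injective _ h]; exact ha.symm
    · rw [Option.some_injective _ h]; exact ha.symm
  -- the extension
  obtain ⟨g, gs, gL, gR, gF, gB⟩ : ∃ g : Option V × Corner → A,
      (∀ a Y, g (some a, Y) = f (a, Y)) ∧ g (none, .left) = f (wl, .left) ∧
      g (none, .right) = f (wr, .right) ∧ g (none, .front) = f (wl, .back) ∧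
      g (none, .back) = f (S.l, .front) :=
    ⟨fun c => match c with
      | (some a, Y) => f (a, Y)
      | (none, .left) => f (wl, .left)
      | (none, .right) => f (wr, .right)
      | (none, .front) => f (wl, .back)
      | (none, .back) => f (S.l, .front), fun _ _ => rfl, rfl, rfl, rfl, rfl⟩
  have gUL : ∀ x, g (x, .left) = g (α x, .left) := by
    intro x
    rcases x with _ | a
    · rw [hwl, gL, gs]
    · rcases h : α (some a) with _ | b
      · rw [gs, gL, hl' a h, e1]
      · have h1 := sUL (some a)
        rw [h] at h1
        rw [gs, gs, fs _ _ _ _ h1]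
  have gUR : ∀ x, g (x, .front) = g (α x, .back) := by
    intro x
    rcases x with _ | a
    · rw [hwl, gF, gs]
    · rcases h : α (some a) with _ | b
      · rw [gs, gB, hl' a h]
      · have h1 := sUR (some a)
        rw [h] at h1
        rw [gs, gs, fs _ _ _ _ h1]
  have gOL : ∀ x, g (x, .front) = g (β x, .back) := by
    intro x
    rcases x with _ | a
    · rw [hwr, gF, gs, e3]
    · rcases h : β (some a) with _ | b
      · rw [gs, gB, hr'' a h, e4]
      · have h1 := sOL (some a)
        rw [h] at h1
        rw [gs, gs, fs _ _ _ _ h1]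
  have gOR : ∀ x, g (x, .right) = g (β x, .right) := by
    intro x
    rcases x with _ | a
    · rw [hwr, gR, gs]
    · rcases h : β (some a) with _ | b
      · rw [gs, gR, hr'' a h, e2]
      · have h1 := sOR (some a)
        rw [h] at h1
        rw [gs, gs, fs _ _ _ _ h1]
  have gside : ∀ c c', S.D.SameSide c c' → g c = g c' := by
    intro c c' h
    cases h with
    | overLeft x =>
      rw [S.pos, S.pos, if_pos rfl, if_pos rfl, gOL x, hβ]
    | overRight x =>
      rw [S.pos, S.pos, if_pos rfl, if_pos rfl, gOR x, hβ]
    | underLeft x =>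
      rw [S.pos, S.pos, if_pos rfl, if_pos rfl, gUL x, hα]
    | underRight x =>
      rw [S.pos, S.pos, if_pos rfl, if_pos rfl, gUR x, hα]
  have greg : ∀ c c', Relation.EqvGen S.D.SameSide c c' → g c = g c' := by
    intro c c' h
    induction h with
    | rel c c' h => exact gside c c' h
    | refl c => rfl
    | symm c c' _ ih => exact ih.symm
    | trans c c' c'' _ _ ih ih' => exact ih.trans ih'
  have h := greg _ _ (Quotient.exact hr)
  rw [gs, gs] at h
  exact h

end Pool.Agent.Helper23.PG
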